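import Pool.Agent.H23.CM4.Targets
import Pool.Agent.H58.MZ.SH
import Pool.Agent.H2.PZ.VV

/-!
# (AFE) the approximate functional equation
-/

set_option autoImplicit false

open NumberField MeasureTheory Set Filter Complex
open scoped nonZeroDivisors Real

namespace Pool.Agent.H49.CM4

open Pool.Agent.H23.CM4
open Pool.Agent.H31.CN (IsLf)
open Pool.Agent.H61.FM (CC pv Sp lm Nn)
open Pool.Agent.H65.CM4 (gG Kc Sq nm dg)
open Pool.Agent.H25.HK (FI Pri du)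

/-- the Gauss factor beats the growth -/
private lemma growth (Ξ : ℂ → ℂ) (C : ℝ) (n : ℕ) (s : ℂ) (hs0 : 0 < s.re) (hs1 : s.re < 1)
    (hC : ∀ w : ℂ, |w.re| ≤ 2 → ‖Ξ w‖ ≤ C * (1 + ‖w‖) ^ (2 * n)) (w : ℂ) (h1 : -1 ≤ w.re)
    (h2 : w.re ≤ 2) :
    ‖Ξ w * cexp ((w - s) ^ 2)‖ ≤
      |C| * ((2 * n).factorial : ℝ) * Real.exp (8 + 2 * |s.im|) * Real.exp (-|w.im|) := by
  have hre : |w.re| ≤ 2 := abs_le.2 ⟨by linarith, h2⟩
  have e1 : ‖Ξ w‖ ≤ |C| * (3 + |w.im|) ^ (2 * n) := by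
    refine (hC w hre).trans ?_
    refine mul_le_mul (le_abs_self C) (pow_le_pow_left₀ (by positivity) ?_ _) (by positivity)
      (abs_nonneg C)
    have := Complex.norm_le_abs_re_add_abs_im w
    linarith
  have e2 : (3 + |w.im|) ^ (2 * n) ≤ ((2 * n).factorial : ℝ) * Real.exp (3 + |w.im|) := by
    have h := Real.pow_div_factorial_le_exp (3 + |w.im|) (by positivity) (2 * n)
    have hf : (0 : ℝ) < ((2 * n).factorial : ℝ) := by exact_mod_cast Nat.factorial_pos _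
    rw [div_le_iff₀ hf] at h
    linarith
  have e3 : ‖cexp ((w - s) ^ 2)‖ = Real.exp ((w.re - s.re) ^ 2 - (w.im - s.im) ^ 2) := by
    rw [Complex.norm_exp]
    congr 1
    rw [pow_two, Complex.mul_re, Complex.sub_re, Complex.sub_im]
    ring
  have e4 : Real.exp (3 + |w.im|) * Real.exp ((w.re - s.re) ^ 2 - (w.im - s.im) ^ 2) ≤
      Real.exp (8 + 2 * |s.im|) * Real.exp (-|w.im|) := by
    rw [← Real.exp_add, ← Real.exp_add]
    apply Real.exp_le_exp.2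
    have a1 : (w.re - s.re) ^ 2 ≤ 4 := by nlinarith
    have a2 : |w.im| ≤ |w.im - s.im| + |s.im| := by
      calc |w.im| = |(w.im - s.im) + s.im| := by rw [sub_add_cancel]
        _ ≤ _ := abs_add_le _ _
    have a3 : 2 * |w.im - s.im| ≤ (w.im - s.im) ^ 2 + 1 := by
      have := sq_nonneg (|w.im - s.im| - 1)
      have h := sq_abs (w.im - s.im)
      nlinarith
    linarith
  rw [norm_mul, e3]
  calc ‖Ξ w‖ * Real.exp ((w.re - s.re) ^ 2 - (w.im - s.im) ^ 2)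
      ≤ (|C| * (((2 * n).factorial : ℝ) * Real.exp (3 + |w.im|))) *
        Real.exp ((w.re - s.re) ^ 2 - (w.im - s.im) ^ 2) := by
        apply mul_le_mul_of_nonneg_right _ (Real.exp_pos _).le
        exact e1.trans (mul_le_mul_of_nonneg_left e2 (abs_nonneg C))
    _ = |C| * ((2 * n).factorial : ℝ) * (Real.exp (3 + |w.im|) *
        Real.exp ((w.re - s.re) ^ 2 - (w.im - s.im) ^ 2)) := by ring
    _ ≤ |C| * ((2 * n).factorial : ℝ) * (Real.exp (8 + 2 * |s.im|) * Real.exp (-|w.im|)) :=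
        mul_le_mul_of_nonneg_left e4 (by positivity)
    _ = _ := by ring

theorem pf_AFE (hXI : T_XI) (hXF : T_XF) (hKSM : T_KSM) (hDSM : T_DSM) (_hGGE : T_GGE) :
    T_AFE := by
  intro n K _ _ hK ψ F hF
  obtain ⟨Ξ, Ξ', ε, hε, hd, hd', h1, h1', hfe, hgr⟩ := hXI n K hK ψ
  refine ⟨ε, hε, fun s hs0 hs1 => ?_⟩
  obtain ⟨hpv, -, -⟩ := hDSM K
  have hs1' : s ≠ 1 := by
    rintro rfl; rw [Complex.one_re] at hs1; exact lt_irrefl _ hs1
  have hK1 := hKSM n K hK (fun J => pv ψ J) s (fun J => (hpv ψ J).le) hs0 hs1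
  have hK2 := hKSM n K hK (fun J => (starRingEnd ℂ) (pv ψ J)) (1 - s)
    (fun J => by rw [Complex.norm_conj]; exact (hpv ψ J).le)
    (by rw [Complex.sub_re, Complex.one_re]; linarith)
    (by rw [Complex.sub_re, Complex.one_re]; linarith)
  refine ⟨_, _, hK1, hK2, ?_⟩
  obtain ⟨C, hC⟩ := hgr 2
  have hsh := Pool.Agent.H58.MZ.sh Pool.Agent.H2.PZ.vv (fun w => Ξ w * cexp ((w - s) ^ 2)) (-1) 2
    (|C| * ((2 * n).factorial : ℝ) * Real.exp (8 + 2 * |s.im|)) s (by linarith) (by linarith)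
    (fun w _ _ => by
      have := hd w
      fun_prop)
    (fun w ha hb => growth Ξ C n s hs0 hs1 hC w ha hb)
  simp only [sub_self] at hsh
  have e0 : Ξ s * cexp (0 ^ 2) = Ξ s := by
    rw [zero_pow two_ne_zero, Complex.exp_zero, mul_one]
  rw [e0, hXF n K hK ψ F Ξ hF hd h1 s hs0 hs1'] at hsh
  rw [← hsh]
  have hre2 : ∀ t : ℝ, 1 < ((2 : ℂ) + t * I).re := by
    intro t; simp
  have i1 : (∫ t : ℝ, Ξ (((2 : ℝ) : ℂ) + t * I) * cexp ((((2 : ℝ) : ℂ) + t * I - s) ^ 2) /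
      (((2 : ℝ) : ℂ) + t * I - s)) =
      ∫ t : ℝ, (gG (2 + t * I) ^ n * (dK K : ℂ) ^ ((2 + t * I) / 2) *
        ∑' J : (Ideal (𝓞 K))⁰, pv ψ J * (nJ J : ℂ) ^ (-(2 + t * I))) *
        (cexp ((2 + t * I - s) ^ 2) / (2 + t * I - s)) := by
    congr 1
    funext t
    rw [Complex.ofReal_ofNat, h1 _ (hre2 t), mul_div_assoc]
  have i2 : (∫ t : ℝ, Ξ (((-1 : ℝ) : ℂ) + t * I) * cexp ((((-1 : ℝ) : ℂ) + t * I - s) ^ 2) /
      (((-1 : ℝ) : ℂ) + t * I - s)) =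
      -(ε * ∫ t : ℝ, (gG (2 + t * I) ^ n * (dK K : ℂ) ^ ((2 + t * I) / 2) *
        ∑' J : (Ideal (𝓞 K))⁰, (starRingEnd ℂ) (pv ψ J) * (nJ J : ℂ) ^ (-(2 + t * I))) *
        (cexp ((2 + t * I - (1 - s)) ^ 2) / (2 + t * I - (1 - s)))) := by
    rw [← integral_neg_eq_self, ← integral_const_mul, ← integral_neg]
    congr 1
    funext t
    have e1 : ((-1 : ℝ) : ℂ) + ((-t : ℝ) : ℂ) * I = 1 - (2 + t * I) := by push_cast; ring
    have e2 : (1 : ℂ) - (2 + t * I) - s = -(2 + t * I - (1 - s)) := by ring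
    rw [e1, hfe, h1' _ (hre2 t), e2, neg_sq, div_neg, mul_div_assoc]
    ring
  rw [i1, i2]
  push_cast
  ring

end Pool.Agent.H49.CM4
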