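import Pool.Agent.H89.CM4.Targets2

/-!
# (TRI) the twisted sums are invariant under translations
-/

set_option autoImplicit false

open MeasureTheory Set Filter NumberField NumberField.InfinitePlace Pool.Agent.H65.CM4
open Pool.Agent.H89.CM4
open scoped Real

namespace Pool.Agent.H49.CM4

section

variable {k : Type} [Field k] [NumberField k]

/-- the shear -/
noncomputable def shr (a : 𝓞 k) : V2 k ≃ₗ[𝓞 k] V2 k where
  toFun u := (u.1 + a * u.2, u.2)
  map_add' u v := by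
    apply Prod.ext
    · simp only [Prod.fst_add, Prod.snd_add]; ring
    · rfl
  map_smul' c u := by
    apply Prod.ext
    · simp only [Prod.smul_fst, Prod.smul_snd, smul_eq_mul, RingHom.id_apply]; ring
    · rfl
  invFun u := (u.1 - a * u.2, u.2)
  left_inv u := by simp
  right_inv u := by simp

theorem shr_apply (a : 𝓞 k) (u : V2 k) : shr a u = (u.1 + a * u.2, u.2) := rfl

theorem det_shr (a : 𝓞 k) (u v : V2 k) : det (shr a u) (shr a v) = det u v := by
  simp only [det, shr_apply]; ring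

theorem shr_neg (a : 𝓞 k) (u : V2 k) : shr a (shr (-a) u) = u := by
  simp only [shr_apply]
  apply Prod.ext
  · ring
  · rfl

theorem val_tr (a : 𝓞 k) (Q : QF k) (u : V2 k) : val (tr a Q) u = val Q (shr a u) := by
  simp only [val, tr, shr_apply]; ring

theorem dsc_tr (a : 𝓞 k) (Q : QF k) : dsc (tr a Q) = dsc Q := by
  simp only [dsc, tr]; ring

theorem mem_mapT (a : 𝓞 k) (N : La k) (u : V2 k) :
    shr a u ∈ N.map (shr a : V2 k →ₗ[𝓞 k] V2 k) ↔ u ∈ N := by
  constructor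
  · rintro ⟨v, hv, e⟩
    have : v = u := (shr a).injective e
    rwa [← this]
  · intro h; exact ⟨u, h, rfl⟩

theorem map_map (a : 𝓞 k) (N : La k) :
    (N.map (shr (-a) : V2 k →ₗ[𝓞 k] V2 k)).map (shr a : V2 k →ₗ[𝓞 k] V2 k) = N := by
  ext u
  constructor
  · rintro ⟨v, ⟨w, hw, rfl⟩, rfl⟩
    have e : (shr a : V2 k →ₗ[𝓞 k] V2 k) ((shr (-a) : V2 k →ₗ[𝓞 k] V2 k) w) = w := shr_neg a w
    rw [e]; exact hw
  · intro h
    exact ⟨shr (-a) u, ⟨u, h, rfl⟩, shr_neg a u⟩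

theorem ix_map (a : 𝓞 k) (N : La k) : ix (N.map (shr a : V2 k →ₗ[𝓞 k] V2 k)) = ix N := by
  unfold ix
  rw [← AddSubgroup.index_map_equiv N.toAddSubgroup (shr a).toAddEquiv]
  rfl

theorem du_map (a : 𝓞 k) (N : La k) : du (N.map (shr a : V2 k →ₗ[𝓞 k] V2 k)) =
    (du N).map (shr a : V2 k →ₗ[𝓞 k] V2 k) := by
  ext u
  obtain ⟨w, rfl⟩ := (shr a).surjective u
  rw [mem_mapT]
  constructor
  · intro h v hv
    have := h (shr a v) ((mem_mapT a N v).2 hv)
    rwa [det_shr, ix_map] at this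
  · rintro h v' ⟨v, hv, rfl⟩
    have := h v hv
    rw [ix_map]
    have e : det (shr a w) (((shr a : V2 k →ₗ[𝓞 k] V2 k)) v) = det w v := det_shr a w v
    rw [e]; exact this

theorem cop_shr (a : 𝓞 k) (I : Ideal (𝓞 k)) (w : V2 k) (h : Cop I w) : Cop I (shr a w) := by
  unfold Cop at h ⊢
  rw [eq_top_iff, ← h]
  refine sup_le_sup_right ?_ _
  rw [Ideal.span_le]
  intro y hy
  have h2 : w.2 ∈ Ideal.span {(shr a w).1, (shr a w).2} :=
    Ideal.subset_span (by simp [shr_apply])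
  have h1 : w.1 + a * w.2 ∈ Ideal.span {(shr a w).1, (shr a w).2} :=
    Ideal.subset_span (by simp [shr_apply])
  rcases hy with rfl | hy
  · have h3 := Ideal.sub_mem _ h1 (Ideal.mul_mem_left _ a h2)
    simpa using h3
  · rw [Set.mem_singleton_iff] at hy
    rw [hy]; exact h2

theorem lw_shr (a : 𝓞 k) (I : Ideal (𝓞 k)) (w : V2 k) :
    (Lw I w).map (shr a : V2 k →ₗ[𝓞 k] V2 k) = Lw I (shr a w) := by
  ext u
  obtain ⟨v, rfl⟩ := (shr a).surjective u
  rw [mem_mapT]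
  change det w v ∈ I ↔ det (shr a w) (shr a v) ∈ I
  rw [det_shr]

theorem ls_shr [IsTotallyReal k] (hFLS : T_FLS k) (a : 𝓞 k) (I : Ideal (𝓞 k)) (hI : I ≠ ⊥)
    (L : La k) (hL : L ∈ Ls I) : L.map (shr a : V2 k →ₗ[𝓞 k] V2 k) ∈ Ls I := by
  obtain ⟨w, hw, rfl⟩ := (hFLS I L hI).1.1 hL
  exact (hFLS I _ hI).1.2 ⟨shr a w, cop_shr a I w hw, lw_shr a I w⟩

theorem dv_shr (a : 𝓞 k) (I : Ideal (𝓞 k)) (L : La k) (Q : QF k) :
    Dv I L (tr a Q) ↔ Dv I (L.map (shr a : V2 k →ₗ[𝓞 k] V2 k)) Q := by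
  constructor
  · rintro h u ⟨v, hv, rfl⟩
    have := h v hv
    rwa [val_tr] at this
  · intro h u hu
    rw [val_tr]
    exact h _ ((mem_mapT a L u).2 hu)

theorem mb_shr (b : ℕ) (M : La k) (hM : Mb b M) (x : 𝓞 k) :
    M.map (shr ((b : 𝓞 k) * x) : V2 k →ₗ[𝓞 k] V2 k) = M := by
  have key : ∀ (y : 𝓞 k) (u : V2 k), u ∈ M → shr ((b : 𝓞 k) * y) u ∈ M := by
    intro y u hu
    have e : shr ((b : 𝓞 k) * y) u = u + (b : 𝓞 k) • ((y * u.2, 0) : V2 k) := by
      rw [shr_apply]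
      apply Prod.ext
      · simp only [Prod.fst_add, Prod.smul_fst, smul_eq_mul]; ring
      · simp
    rw [e]
    exact M.add_mem hu (hM _)
  ext u
  constructor
  · rintro ⟨v, hv, rfl⟩
    exact key x v hv
  · intro hu
    refine ⟨shr (-((b : 𝓞 k) * x)) u, ?_, shr_neg _ u⟩
    have := key (-x) u hu
    rwa [mul_neg] at this

end

section

variable (k : Type) [Field k] [NumberField k] [IsTotallyReal k]

theorem ez_shr (hFOR : T_FOR k) (hQZR : T_QZR k) (a : 𝓞 k) (s : ℂ) (N : La k)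
    (x y : Pl k → ℝ) : Ez s N (fun v => x v + rv v (a : k)) y =
      Ez s (N.map (shr a : V2 k →ₗ[𝓞 k] V2 k)) x y := by
  classical
  obtain ⟨-, hu, hq, -⟩ := hQZR
  have hq' : ∀ u : V2 k, qn (fun v => ((x v + rv v (a : k) : ℝ) : ℂ)) (fun v => (y v : ℂ)) u =
      qn (fun v => (x v : ℂ)) (fun v => (y v : ℂ)) (shr a u) := by
    intro u
    have e : (fun v => ((x v + rv v (a : k) : ℝ) : ℂ)) =
        fun v => (x v : ℂ) + ((rv v (a : k) : ℝ) : ℂ) := by
      funext v; push_cast; rfl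
    rw [e, shr_apply]
    exact hq (fun v => (x v : ℂ)) (fun v => (y v : ℂ)) u a
  unfold Ez Ec
  rw [ix_map, du_map]
  have e1 := hFOR.2 (shr a) N (fun u => Kc (dg k) s
    (qn (fun v => (x v : ℂ)) (fun v => (y v : ℂ)) u / (ix N : ℂ)))
    (fun e u => by simp only [hu])
  have e2 := hFOR.2 (shr a) (du N) (fun u => Kc (dg k) (1 - s)
    ((ix N : ℂ) * qn (fun v => (x v : ℂ)) (fun v => (y v : ℂ)) u /
      ((dk k * ix N : ℕ) : ℂ) ^ (2 * dg k)))
    (fun e u => by simp only [hu])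
  simp only [hq']
  rw [e1, e2]

theorem pf_TRI (hFOR : T_FOR k) (hQZR : T_QZR k) (hFLS : T_FLS k) (hIDC : T_IDC k) :
    T_TRI k := by
  classical
  intro b M s α A Q x hb hM hQ
  set a : 𝓞 k := (b : 𝓞 k) * x with ha
  have hzx : zx (tr a Q) = fun v => zx Q v + rv v (a : k) := by
    funext v
    have h0 : rv v (Q.1 : k) ≠ 0 := (hQ v).1.ne'
    simp only [zx, tr]
    push_cast
    simp only [map_add, map_mul, map_ofNat]
    field_simp
  have hzy : zy (tr a Q) = zy Q := by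
    funext v
    simp only [zy, dsc_tr]
    rfl
  unfold Bf
  refine Finset.sum_congr rfl fun I hI => ?_
  have hI0 : I ≠ ⊥ := ((hIDC.2.1 b A I).1 hI).1
  refine congrArg (fun z => α I * z) ?_
  refine Finset.sum_bij (fun L _ => L.map (shr a : V2 k →ₗ[𝓞 k] V2 k)) ?_ ?_ ?_ ?_
  · intro L hL
    rw [Finset.mem_filter] at hL ⊢
    exact ⟨ls_shr hFLS a I hI0 L hL.1, (dv_shr a I L Q).1 hL.2⟩
  · intro L _ L' _ h
    exact Submodule.map_injective_of_injective (shr a).injective h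
  · intro L hL
    rw [Finset.mem_filter] at hL
    refine ⟨L.map (shr (-a) : V2 k →ₗ[𝓞 k] V2 k), ?_, map_map a L⟩
    rw [Finset.mem_filter]
    refine ⟨ls_shr hFLS (-a) I hI0 L hL.1, ?_⟩
    rw [dv_shr, map_map]; exact hL.2
  · intro L _
    rw [hzx, hzy, ez_shr k hFOR hQZR, Submodule.map_inf _ (shr a).injective, ha,
      mb_shr b M hM x]

end

end Pool.Agent.H49.CM4
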