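import Pool.Agent.H95.CM.Targets

/-!
# (PVF) the twisted second moment for one field, CM extensions
-/

set_option autoImplicit false

open MeasureTheory Set Filter NumberField
open scoped Real nonZeroDivisors

namespace Pool.Agent.H49.CM4

open Pool.Agent.H65.CM4
open Pool.Agent.H95.CM
open Pool.Agent.H31.CN (IsLf)
open Pool.Agent.H61.FM (CC pv)

theorem pf_PVF (hLF2 : T_LF2) (hPVL : Pool.Agent.H61.FM.T_PVL) (hMEM : T_MEM) (hUNI : T_UNI) :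
    T_PVF := by
  classical
  intro k K _ _ _ _ _ _ _ _ b B y R F hb hF s A α hs
  have hs' := abs_le.mp hs
  have hs0 : 0 < s.re := by linarith [hs'.1]
  have hs2 : s.re < 2 := by linarith [hs'.2]
  have hs1 : s ≠ 1 := by
    rintro rfl
    have := hs'.2
    rw [Complex.one_re] at this
    norm_num at this
  have hD : (0 : ℝ) < Dr k K := by
    unfold Dr
    have h1 : (0 : ℝ) < |(discr K : ℝ)| :=
      abs_pos.2 (by exact_mod_cast NumberField.discr_ne_zero K)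
    have h2 : (0 : ℝ) < (dk k : ℝ) := by
      have : 0 < dk k := Int.natAbs_pos.2 (NumberField.discr_ne_zero k)
      exact_mod_cast this
    exact div_pos h1 (by positivity)
  set z : ClassGroup (𝓞 K) → ℂ := fun c => Bf s α b A (R.M c) (R.Q c) with hz
  have key : ∀ ψ : CC K, (∑ I ∈ Sq b A, α I * lm k ψ I) *
      (gG s ^ dg k * (Dr k K : ℂ) ^ (s / 2) * F ψ s) =
      (un k K : ℂ)⁻¹ * ∑ c, (((ψ c)⁻¹ : ℂˣ) : ℂ) * z c := by
    intro ψ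
    rw [Finset.sum_mul]
    have h1 : ∀ I ∈ Sq b A, α I * lm k ψ I * (gG s ^ dg k * (Dr k K : ℂ) ^ (s / 2) * F ψ s) =
        (un k K : ℂ)⁻¹ * ∑ c, (((ψ c)⁻¹ : ℂˣ) : ℂ) * (α I *
          ∑ L ∈ (Ls I).filter (fun L => Dv I L (R.Q c)),
            Ez s (R.M c ⊓ L) (zx (R.Q c)) (zy (R.Q c))) := by
      intro I hI
      obtain ⟨hI0, hsq, hco, -⟩ := ((hMEM k).2 b A I).1 hI
      rw [mul_assoc, hLF2 k K b B y R ψ (F ψ) hb (hF ψ) I hI0 hsq hco s hs0 hs2 hs1,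
        Finset.mul_sum, Finset.mul_sum, Finset.mul_sum]
      refine Finset.sum_congr rfl fun c _ => ?_
      ring
    rw [Finset.sum_congr rfl h1, ← Finset.mul_sum, Finset.sum_comm]
    congr 1
    refine Finset.sum_congr rfl fun c _ => ?_
    rw [← Finset.mul_sum]
    rfl
  have hnD : ‖(Dr k K : ℂ) ^ (s / 2)‖ ^ 2 = (Dr k K) ^ s.re := by
    rw [Complex.norm_cpow_eq_rpow_re_of_pos hD, ← Real.rpow_natCast, ← Real.rpow_mul hD.le]
    congr 1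
    have : (s / 2).re = s.re / 2 := by
      rw [show s / 2 = s / ((2 : ℝ) : ℂ) by push_cast; rfl, Complex.div_ofReal_re]
    rw [this]
    push_cast
    ring
  have h2 : ∀ ψ : CC K, ‖∑ I ∈ Sq b A, α I * lm k ψ I‖ ^ 2 * ‖F ψ s‖ ^ 2 *
      ((‖gG s‖ ^ dg k) ^ 2 * (Dr k K) ^ s.re) =
      ‖(un k K : ℂ)⁻¹‖ ^ 2 * ‖∑ c, (((ψ c)⁻¹ : ℂˣ) : ℂ) * z c‖ ^ 2 := by
    intro ψ
    rw [← mul_pow ‖(un k K : ℂ)⁻¹‖, ← norm_mul, ← key ψ, norm_mul, norm_mul,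
      norm_mul, mul_pow, mul_pow, mul_pow, norm_pow, hnD]
    ring
  have hw : ‖(un k K : ℂ)⁻¹‖ ^ 2 ≤ 1 := by
    rw [norm_inv, Complex.norm_natCast]
    have h := hUNI k K
    have h3 : (1 : ℝ) ≤ un k K := by exact_mod_cast h
    exact pow_le_one₀ (by positivity) (inv_le_one_of_one_le₀ h3)
  calc ∑ ψ : CC K, ‖∑ I ∈ Sq b A, α I * lm k ψ I‖ ^ 2 * ‖F ψ s‖ ^ 2 *
        ((‖gG s‖ ^ dg k) ^ 2 * (Dr k K) ^ s.re)
      = ‖(un k K : ℂ)⁻¹‖ ^ 2 * ∑ ψ : CC K, ‖∑ c, (((ψ c)⁻¹ : ℂˣ) : ℂ) * z c‖ ^ 2 := by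
        rw [Finset.mul_sum]
        exact Finset.sum_congr rfl fun ψ _ => h2 ψ
    _ ≤ 1 * ∑ ψ : CC K, ‖∑ c, (((ψ c)⁻¹ : ℂˣ) : ℂ) * z c‖ ^ 2 := by
        apply mul_le_mul_of_nonneg_right hw
        exact Finset.sum_nonneg fun _ _ => sq_nonneg _
    _ = _ := by
        rw [one_mul, hPVL (ClassGroup (𝓞 K)) z]

end Pool.Agent.H49.CM4
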