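import Pool.Agent.H65.CM4.Targets1

/-!
# Board cm4_modules, module GCD
helper49
-/

set_option autoImplicit false

open MeasureTheory Set Filter NumberField NumberField.InfinitePlace Pool.Agent.H65.CM4
open scoped Real

namespace Pool.Agent.H49.CM4

variable (k : Type) [Field k] [NumberField k] [IsTotallyReal k]

theorem pf_GCD (hEMB : T_EMB k) (hIDC : T_IDC k) (hDVI : T_DVI k) : T_GCD k := by
  classical
  intro ε hε
  obtain ⟨-, -, -, -, -, -, -, -, hspan, hone, hid, -⟩ := hEMB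
  obtain ⟨hId, -, C2, hC2, hsum⟩ := hIDC
  set δ : ℝ := ε / 2 with hδ
  have hδ0 : 0 < δ := by positivity
  obtain ⟨C1, hC1, hdiv⟩ := hDVI δ hδ0
  have hC : 1 ≤ C1 * C1 * (C2 * (1 + 1 / δ)) := by
    have h1 : 1 ≤ C1 * C1 := by nlinarith
    have h2 : 1 ≤ 1 + 1 / δ := by
      have : 0 < 1 / δ := by positivity
      linarith
    have h3 : 1 ≤ C2 * (1 + 1 / δ) := by nlinarith
    nlinarith
  refine ⟨C1 * C1 * (C2 * (1 + 1 / δ)), hC, ?_⟩
  intro A a hA ha
  have hA0 : 0 < A := by linarith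
  have hN1 : 1 ≤ Nr (a : k) := hone a ha
  have hs0 : Ideal.span {a} ≠ (⊥ : Ideal (𝓞 k)) := by
    rw [Ne, Ideal.span_singleton_eq_bot]; exact ha
  obtain ⟨hfin, hcard, -⟩ := hdiv (Ideal.span {a}) hs0
  rw [hspan a] at hcard
  set D : Finset (Ideal (𝓞 k)) := hfin.toFinset with hD
  have hDc : (D.card : ℝ) ≤ C1 * Nr (a : k) ^ δ := by
    rw [hD, ← Set.ncard_eq_toFinset_card _ hfin]; exact hcard
  have hex : ∀ f : Ideal (𝓞 k), ∃ q : Ideal (𝓞 k), f = (f ⊔ Ideal.span {a}) * q := fun f =>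
    Ideal.dvd_iff_le.2 (le_sup_left : f ≤ f ⊔ Ideal.span {a})
  choose q hq using hex
  have hnmmul : ∀ I J : Ideal (𝓞 k), nm (I * J) = nm I * nm J := by
    intro I J
    simp only [nm, map_mul, Nat.cast_mul]
  -- properties of the quotient
  have hprop : ∀ f ∈ Id k A, f ≠ ⊥ ∧ nm f ≤ A ∧ q f ≠ ⊥ ∧ f ⊔ Ideal.span {a} ≠ ⊥ ∧
      nm f = nm (f ⊔ Ideal.span {a}) * nm (q f) := by
    intro f hf
    obtain ⟨h1, h2⟩ := (hId A f).1 hf
    refine ⟨h1, h2, ?_, ?_, ?_⟩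
    · intro h
      apply h1
      rw [hq f, h, Ideal.mul_bot]
    · intro h
      exact h1 (le_bot_iff.1 (h ▸ (le_sup_left : f ≤ f ⊔ Ideal.span {a})))
    · rw [← hnmmul, ← hq f]
  have hterm : ∀ f ∈ Id k A, 3 ^ (pf f).card * nm (f ⊔ Ideal.span {a}) / nm f ≤
      C1 * A ^ δ * (1 / nm (q f)) := by
    intro f hf
    obtain ⟨h1, h2, h3, h4, h5⟩ := hprop f hf
    have g1 := (hid _ h4).1
    have g2 := (hid _ h3).1
    have g3 := (hid _ h1).1
    have e1 : 3 ^ (pf f).card * nm (f ⊔ Ideal.span {a}) / nm f =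
        3 ^ (pf f).card * (1 / nm (q f)) := by
      rw [h5]
      have : nm (f ⊔ Ideal.span {a}) ≠ 0 := by linarith
      have : nm (q f) ≠ 0 := by linarith
      field_simp
    rw [e1]
    apply mul_le_mul_of_nonneg_right _ (by positivity)
    calc (3 : ℝ) ^ (pf f).card ≤ C1 * nm f ^ δ := (hdiv f h1).2.2
      _ ≤ C1 * A ^ δ := by
          apply mul_le_mul_of_nonneg_left _ (by linarith)
          exact Real.rpow_le_rpow (by linarith) h2 hδ0.le
  have hinj : Set.InjOn (fun f => (f ⊔ Ideal.span {a}, q f)) (Id k A : Set (Ideal (𝓞 k))) := by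
    intro f _ f' _ h
    simp only [Prod.mk.injEq] at h
    rw [hq f, hq f', h.1, h.2]
  have hsumq : ∑ f ∈ Id k A, 1 / nm (q f) ≤ D.card * ∑ I ∈ Id k A, 1 / nm I := by
    have e1 : ∑ f ∈ Id k A, 1 / nm (q f) =
        ∑ p ∈ (Id k A).image (fun f => (f ⊔ Ideal.span {a}, q f)), 1 / nm p.2 := by
      rw [Finset.sum_image hinj]
    have e2 : (D.card : ℝ) * ∑ I ∈ Id k A, 1 / nm I = ∑ p ∈ D ×ˢ Id k A, 1 / nm p.2 := by
      rw [Finset.sum_product]
      simp only [Finset.sum_const, nsmul_eq_mul]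
    rw [e1, e2]
    apply Finset.sum_le_sum_of_subset_of_nonneg
    · intro p hp
      obtain ⟨f, hf, rfl⟩ := Finset.mem_image.1 hp
      obtain ⟨h1, h2, h3, h4, h5⟩ := hprop f hf
      have g1 := (hid _ h4).1
      have g2 := (hid _ h3).1
      rw [Finset.mem_product]
      refine ⟨?_, ?_⟩
      · rw [hD, Set.Finite.mem_toFinset]
        exact Ideal.dvd_iff_le.2 le_sup_right
      · rw [hId]
        refine ⟨h3, ?_⟩
        calc nm (q f) ≤ nm (f ⊔ Ideal.span {a}) * nm (q f) := by nlinarith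
          _ = nm f := h5.symm
          _ ≤ A := h2
    · intro p _ _
      have : 0 ≤ nm p.2 := Nat.cast_nonneg _
      positivity
  have hlog : 1 + Real.log A ≤ (1 + 1 / δ) * A ^ δ := by
    have h1 : Real.log A ≤ A ^ δ / δ := Real.log_le_rpow_div hA0.le hδ0
    have h2 : 1 ≤ A ^ δ := Real.one_le_rpow hA hδ0.le
    calc 1 + Real.log A ≤ A ^ δ + A ^ δ / δ := add_le_add h2 h1
      _ = _ := by ring
  have hA1 : 0 ≤ A ^ δ := by positivity
  have hNδ : 0 ≤ Nr (a : k) ^ δ := by positivity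
  have hfin1 : ∑ I ∈ Id k A, 1 / nm I ≤ C2 * ((1 + 1 / δ) * A ^ δ) :=
    ((hsum A hA).2).trans (mul_le_mul_of_nonneg_left hlog (by linarith))
  have hpos : 0 ≤ ∑ I ∈ Id k A, 1 / nm I := Finset.sum_nonneg fun I _ => by
    have : 0 ≤ nm I := Nat.cast_nonneg _
    positivity
  calc ∑ f ∈ Id k A, 3 ^ (pf f).card * nm (f ⊔ Ideal.span {a}) / nm f
      ≤ ∑ f ∈ Id k A, C1 * A ^ δ * (1 / nm (q f)) := Finset.sum_le_sum hterm
    _ = C1 * A ^ δ * ∑ f ∈ Id k A, 1 / nm (q f) := by rw [Finset.mul_sum]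
    _ ≤ C1 * A ^ δ * (D.card * ∑ I ∈ Id k A, 1 / nm I) :=
        mul_le_mul_of_nonneg_left hsumq (mul_nonneg (by linarith) hA1)
    _ ≤ C1 * A ^ δ * ((C1 * Nr (a : k) ^ δ) * (C2 * ((1 + 1 / δ) * A ^ δ))) := by
        apply mul_le_mul_of_nonneg_left _ (mul_nonneg (by linarith) hA1)
        exact mul_le_mul hDc hfin1 hpos (mul_nonneg (by linarith) hNδ)
    _ = C1 * C1 * (C2 * (1 + 1 / δ)) * (A ^ δ * A ^ δ * Nr (a : k) ^ δ) := by ring
    _ ≤ C1 * C1 * (C2 * (1 + 1 / δ)) * (A * Nr (a : k)) ^ ε := by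
        apply mul_le_mul_of_nonneg_left _ (by linarith)
        rw [Real.mul_rpow hA0.le (by linarith), ← Real.rpow_add hA0]
        have e3 : δ + δ = ε := by rw [hδ]; ring
        rw [e3]
        apply mul_le_mul_of_nonneg_left _ (by positivity)
        exact Real.rpow_le_rpow_of_exponent_le hN1 (by rw [hδ]; linarith)

end Pool.Agent.H49.CM4
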